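import Mathlib
import Pool.Agent.W93.CU2

set_option autoImplicit false

/-! # The median inequality for the sum-of-digits measures `P_t` -/

namespace Pool.Agent.Results.MP_23af5d_nt.MedianInequality

open W93.CU

/-- The measures `P_t` on `ℤ`, as functions of the point `d`: `P_1` is the point mass at `0`,
`P_{2n} = P_n` and `P_{2n+1}(d) = P_n(d-1)/2 + P_{n+1}(d+1)/2` for `n ≥ 1` (the value at `t = 0`
plays no role). -/
noncomputable def P (t : ℕ) : ℤ → ℝ :=
  if t ≤ 1 then fun d => if d = 0 then 1 else 0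
  else if t % 2 = 0 then P (t / 2)
  else fun d => 1 / 2 * P (t / 2) (d - 1) + 1 / 2 * P (t / 2 + 1) (d + 1)
termination_by t
decreasing_by all_goals omega

lemma P_one : P 1 = fun d => if d = 0 then 1 else 0 := by
  rw [P]; simp

lemma P_even (n : ℕ) (hn : 1 ≤ n) : P (2 * n) = P n := by
  rw [P, if_neg (by omega), if_pos (by omega), show 2 * n / 2 = n by omega]

lemma P_odd (n : ℕ) (hn : 1 ≤ n) (d : ℤ) :
    P (2 * n + 1) d = 1 / 2 * P n (d - 1) + 1 / 2 * P (n + 1) (d + 1) := by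
  rw [P, if_neg (by omega), if_neg (by omega), show (2 * n + 1) / 2 = n by omega]

/-- tails, to the right -/
noncomputable def A (t : ℕ) (k : ℤ) : ℝ := ∑' d : ℕ, P t (k + d)
/-- tails, to the left -/
noncomputable def B (t : ℕ) (k : ℤ) : ℝ := ∑' d : ℕ, P t (k - d)

/-- induction along the binary expansion -/
lemma bin_ind {p : ℕ → Prop} (h1 : p 1) (he : ∀ n, 1 ≤ n → p n → p (2 * n))
    (ho : ∀ n, 1 ≤ n → p n → p (n + 1) → p (2 * n + 1)) : ∀ t, 1 ≤ t → p t := by
  intro t
  induction t using Nat.strong_induction_on with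
  | _ t ih =>
    intro ht
    by_cases e : t = 1
    · rw [e]; exact h1
    · rcases Nat.even_or_odd' t with ⟨n, rfl | rfl⟩
      · exact he n (by omega) (ih n (by omega) (by omega))
      · exact ho n (by omega) (ih n (by omega) (by omega)) (ih (n + 1) (by omega) (by omega))

lemma P_nonneg (t : ℕ) (ht : 1 ≤ t) : ∀ d, 0 ≤ P t d := by
  refine bin_ind (p := fun t => ∀ d, 0 ≤ P t d) ?_ ?_ ?_ t ht
  · intro d; rw [P_one]; dsimp only; split_ifs <;> norm_num
  · intro n hn h d; rw [P_even n hn]; exact h d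
  · intro n hn h h' d; rw [P_odd n hn]
    have := h (d - 1); have := h' (d + 1); linarith

/-- tail of the point mass at zero, to the left -/
noncomputable def left0 (k : ℤ) : ℝ := if 0 ≤ k then 1 else 0

lemma hasSum_right (t : ℕ) (ht : 1 ≤ t) : ∀ k : ℤ, HasSum (fun d : ℕ => P t (k + d)) (A t k) := by
  suffices h : ∀ k : ℤ, Summable (fun d : ℕ => P t (k + d)) from fun k => (h k).hasSum
  refine bin_ind (p := fun t => ∀ k : ℤ, Summable (fun d : ℕ => P t (k + d))) ?_ ?_ ?_ t ht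
  · intro k
    rw [P_one]
    refine summable_of_ne_finset_zero (s := {(-k).toNat}) fun d hd => ?_
    rw [Finset.mem_singleton] at hd
    exact if_neg (by omega)
  · intro n hn h k; rw [P_even n hn]; exact h k
  · intro n hn h h' k
    have h1 := (h (k - 1)).mul_left (1 / 2)
    have h2 := (h' (k + 1)).mul_left (1 / 2)
    refine (h1.add h2).congr fun d => ?_
    rw [P_odd n hn]
    congr 3 <;> ring_nf

lemma hasSum_left (t : ℕ) (ht : 1 ≤ t) : ∀ k : ℤ, HasSum (fun d : ℕ => P t (k - d)) (B t k) := by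
  suffices h : ∀ k : ℤ, Summable (fun d : ℕ => P t (k - d)) from fun k => (h k).hasSum
  refine bin_ind (p := fun t => ∀ k : ℤ, Summable (fun d : ℕ => P t (k - d))) ?_ ?_ ?_ t ht
  · intro k
    rw [P_one]
    refine summable_of_ne_finset_zero (s := {k.toNat}) fun d hd => ?_
    rw [Finset.mem_singleton] at hd
    exact if_neg (by omega)
  · intro n hn h k; rw [P_even n hn]; exact h k
  · intro n hn h h' k
    have h1 := (h (k - 1)).mul_left (1 / 2)
    have h2 := (h' (k + 1)).mul_left (1 / 2)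
    refine (h1.add h2).congr fun d => ?_
    rw [P_odd n hn]
    congr 3 <;> ring_nf

lemma A_one : A 1 = one0 := by
  funext k
  unfold A one0
  rw [P_one]
  by_cases hk : k ≤ 0
  · rw [if_pos hk, tsum_eq_single (-k).toNat]
    · exact if_pos (by omega)
    · intro d hd; exact if_neg (by omega)
  · rw [if_neg hk]
    have : (fun d : ℕ => (if k + (d : ℤ) = 0 then (1 : ℝ) else 0)) = fun _ => 0 := by
      funext d; exact if_neg (by omega)
    rw [this, tsum_zero]

lemma B_one (k : ℤ) : B 1 k = if 0 ≤ k then 1 else 0 := by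
  unfold B
  rw [P_one]
  by_cases hk : 0 ≤ k
  · rw [if_pos hk, tsum_eq_single k.toNat]
    · exact if_pos (by omega)
    · intro d hd; exact if_neg (by omega)
  · rw [if_neg hk]
    have : (fun d : ℕ => (if k - (d : ℤ) = 0 then (1 : ℝ) else 0)) = fun _ => 0 := by
      funext d; exact if_neg (by omega)
    rw [this, tsum_zero]

lemma A_even (n : ℕ) (hn : 1 ≤ n) : A (2 * n) = A n := by
  funext k; unfold A; rw [P_even n hn]

lemma A_odd (n : ℕ) (hn : 1 ≤ n) (k : ℤ) : A (2 * n + 1) k = A n (k - 1) / 2 + A (n + 1) (k + 1) / 2 := by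
  have h1 := (hasSum_right n hn (k - 1)).mul_left (1 / 2)
  have h2 := (hasSum_right (n + 1) (by omega) (k + 1)).mul_left (1 / 2)
  have h3 := h1.add h2
  have e : (fun d : ℕ => 1 / 2 * P n (k - 1 + d) + 1 / 2 * P (n + 1) (k + 1 + d)) =
      fun d : ℕ => P (2 * n + 1) (k + d) := by
    funext d; rw [P_odd n hn]; congr 3 <;> ring_nf
  rw [e] at h3
  unfold A at h3 ⊢
  rw [h3.tsum_eq]; ring

lemma B_odd (n : ℕ) (hn : 1 ≤ n) (k : ℤ) : B (2 * n + 1) k = B n (k - 1) / 2 + B (n + 1) (k + 1) / 2 := by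
  have h1 := (hasSum_left n hn (k - 1)).mul_left (1 / 2)
  have h2 := (hasSum_left (n + 1) (by omega) (k + 1)).mul_left (1 / 2)
  have h3 := h1.add h2
  have e : (fun d : ℕ => 1 / 2 * P n (k - 1 - d) + 1 / 2 * P (n + 1) (k + 1 - d)) =
      fun d : ℕ => P (2 * n + 1) (k - d) := by
    funext d; rw [P_odd n hn]; congr 3 <;> ring_nf
  rw [e] at h3
  unfold B at h3 ⊢
  rw [h3.tsum_eq]; ring

/-- the two tails add up to the total mass `1` -/
lemma total (t : ℕ) (ht : 1 ≤ t) : ∀ k : ℤ, A t (k + 1) + B t k = 1 := by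
  refine bin_ind (p := fun t => ∀ k : ℤ, A t (k + 1) + B t k = 1) ?_ ?_ ?_ t ht
  · intro k
    rw [A_one, B_one]
    unfold one0
    by_cases hk : 0 ≤ k
    · rw [if_pos hk, if_neg (by omega)]; norm_num
    · rw [if_neg hk, if_pos (by omega)]; norm_num
  · intro n hn h k
    rw [A_even n hn]
    unfold B
    rw [P_even n hn]
    exact h k
  · intro n hn h h' k
    rw [A_odd n hn, B_odd n hn]
    have e1 := h (k - 1)
    have e2 := h' (k + 1)
    rw [show k - 1 + 1 = k + 1 - 1 by ring] at e1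
    linarith

/-- the pair of the tails of `P_n` and `P_{n+1}` -/
lemma pair (n : ℕ) (hn : 1 ≤ n) :
    ∃ w : List Bool, (tl one0 one0 w).1 = A n ∧ (tl one0 one0 w).2 = A (n + 1) := by
  refine bin_ind (p := fun n => ∃ w : List Bool,
    (tl one0 one0 w).1 = A n ∧ (tl one0 one0 w).2 = A (n + 1)) ?_ ?_ ?_ n hn
  · refine ⟨[], A_one.symm, ?_⟩
    have : A (1 + 1) = A 1 := A_even 1 le_rfl
    rw [this]; exact A_one.symm
  · rintro n hn ⟨w, h1, h2⟩
    refine ⟨false :: w, ?_, ?_⟩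
    · show (tl one0 one0 w).1 = _
      rw [h1, A_even n hn]
    · show (fun k => (tl one0 one0 w).1 (k-1) / 2 + (tl one0 one0 w).2 (k+1) / 2) = _
      rw [h1, h2]
      funext k
      rw [A_odd n hn]
  · rintro n hn ⟨w, h1, h2⟩ -
    refine ⟨true :: w, ?_, ?_⟩
    · show (fun k => (tl one0 one0 w).1 (k-1) / 2 + (tl one0 one0 w).2 (k+1) / 2) = _
      rw [h1, h2]
      funext k
      rw [A_odd n hn]
    · show (tl one0 one0 w).2 = _
      rw [h2, show 2 * n + 1 + 1 = 2 * (n + 1) by ring, A_even (n + 1) (by omega)]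

lemma main (t : ℕ) (ht : 1 ≤ t) : 1 / 2 ≤ A t 0 ∧ A t 1 ≤ 1 / 2 := by
  refine bin_ind (p := fun t => 1 / 2 ≤ A t 0 ∧ A t 1 ≤ 1 / 2) ?_ ?_ ?_ t ht
  · rw [A_one]; unfold one0; norm_num
  · intro n hn h; rw [A_even n hn]; exact h
  · intro n hn _ _
    obtain ⟨w, h1, h2⟩ := pair n hn
    have e : (tl one0 one0 (true :: w)).1 = A (2 * n + 1) := by
      show (fun k => (tl one0 one0 w).1 (k-1) / 2 + (tl one0 one0 w).2 (k+1) / 2) = _
      rw [h1, h2]
      funext k
      rw [A_odd n hn]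
    rw [← e]
    exact ⟨median_odd w, median_odd_le w⟩

/-- **The median inequality.** The family `P` satisfies the recursion `P_1 = δ_0`, `P_{2n} = P_n`,
`P_{2n+1}(d) = P_n(d-1)/2 + P_{n+1}(d+1)/2`; every `P_t`, `t ≥ 1`, is a probability measure on `ℤ`;
and `P_t(ℕ) ≥ 1/2` and `P_t(-ℕ) ≥ 1/2` for every `t ≥ 1`. -/
theorem result :
    (∀ d : ℤ, P 1 d = if d = 0 then 1 else 0) ∧
    (∀ n : ℕ, 1 ≤ n → ∀ d : ℤ, P (2 * n) d = P n d) ∧
    (∀ n : ℕ, 1 ≤ n → ∀ d : ℤ,
      P (2 * n + 1) d = 1 / 2 * P n (d - 1) + 1 / 2 * P (n + 1) (d + 1)) ∧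
    (∀ t : ℕ, 1 ≤ t → (∀ d : ℤ, 0 ≤ P t d) ∧ HasSum (P t) 1) ∧
    (∀ t : ℕ, 1 ≤ t → 1 / 2 ≤ ∑' d : ℕ, P t d ∧ 1 / 2 ≤ ∑' d : ℕ, P t (-d)) := by
  refine ⟨fun d => by rw [P_one], fun n hn d => by rw [P_even n hn], fun n hn d => P_odd n hn d,
    fun t ht => ⟨P_nonneg t ht, ?_⟩, fun t ht => ?_⟩
  · have h1 := hasSum_right t ht 0
    have h2 := hasSum_left t ht (-1)
    have h3 : HasSum (fun d : ℕ => P t (d : ℤ)) (A t 0) := by simpa using h1
    have h4 : HasSum (fun d : ℕ => P t (-((d : ℤ) + 1))) (B t (-1)) := by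
      have e : (fun d : ℕ => P t (-((d : ℤ) + 1))) = fun d : ℕ => P t (-1 - (d : ℤ)) := by
        funext d; congr 1; ring
      rw [e]; exact h2
    have h5 := h3.of_nat_of_neg_add_one h4
    have := total t ht (-1)
    rw [show (-1 : ℤ) + 1 = 0 by ring] at this
    rwa [this] at h5
  · obtain ⟨h1, h2⟩ := main t ht
    have h3 := total t ht 0
    rw [show (0 : ℤ) + 1 = 1 by ring] at h3
    constructor
    · have e : ∑' d : ℕ, P t d = A t 0 := by unfold A; simp
      rw [e]; exact h1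
    · have e : ∑' d : ℕ, P t (-d) = B t 0 := by unfold B; simp
      rw [e]; linarith

end Pool.Agent.Results.MP_23af5d_nt.MedianInequality
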